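import Pool.Agent.H45.UZ.TarP

/-!
# Module PHA: values of histories
-/

set_option linter.unusedVariables false

open Ordinal Order Set
open scoped ZFSet

namespace SE.UZ

open SF

namespace PHA

theorem ht_inj {q X Y e q' X' Y' e' : V} (h : ht q X Y e = ht q' X' Y' e') :
    q = q' ∧ X = X' ∧ Y = Y' ∧ e = e' := by
  unfold ht at h
  obtain ⟨h1, h2⟩ := ZFSet.pair_inj.1 h
  obtain ⟨h3, h4⟩ := ZFSet.pair_inj.1 h2
  obtain ⟨h5, h6⟩ := ZFSet.pair_inj.1 h4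
  exact ⟨h1, h3, h5, h6⟩

theorem sss_ht (q X Y e : V) : snd (snd (snd (ht q X Y e))) = e := by
  unfold ht
  simp only [snd_pair]

/-- elements of a history -/
theorem his_mem {D : Cx} {ρ h : V} {σ : Ordinal.{0}} (hh : His D ρ h σ) {q X Y : V}
    {e : Ordinal.{0}} (hz : ht q X Y e.toZFSet ∈ h) :
    q ∈ D.P ρ ∧ e < σ ∧ (D.N X ∧ Nam D.L ρ X) ∧ (D.N Y ∧ Nam D.L ρ Y) := by
  obtain ⟨q', hq', X', Y', e', he', hX, hY, heq⟩ := hh.m _ hz
  obtain ⟨h1, h2, h3, h4⟩ := ht_inj heq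
  have h5 : e = e' := Ordinal.toZFSet_injective h4
  subst h1 h2 h3 h5
  exact ⟨hq', he', hX, hY⟩

theorem his_N {D : Cx} (hD : D.Ok) {h q X Y e : V} (hh : D.N h) (hz : ht q X Y e ∈ h) :
    D.N e := by
  have k : ZFm D.N := hD.zfc.toZFCm.toZFm
  have h1 := k.trans _ hh _ hz
  unfold ht at h1
  exact (k.of_pair (k.of_pair (k.of_pair h1).2).2).2

theorem dm_sub {L ρ q : V} (hq : q ∈ Pos L ρ) : dm q ⊆ ρ := by
  intro i hi
  rw [mem_dm] at hi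
  obtain ⟨y, hy⟩ := hi
  have h1 := (ZFSet.mem_sep.1 hq).1
  have h2 := (ZFSet.mem_sep.1 h1).1
  exact (ZFSet.pair_mem_prod.1 ((ZFSet.mem_powerset.1 h2) hy)).1

theorem hr_N {D : Cx} (hD : D.Ok) {ρ h : V} {σ : Ordinal.{0}} (hh : His D ρ h σ)
    (e : Ordinal.{0}) : D.N (hr h e) := by
  have k : ZFm D.N := hD.zfc.toZFCm.toZFm
  by_cases he : D.N e.toZFSet
  · have h1 : Tm ZFm (fun _ v => (v 0).sep fun z => snd (snd (snd z)) ∈ v 1) :=
      Tm.sep (R := fun _ v => snd (snd (snd (v 0))) ∈ v 2)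
        (Dfb.mem (Tm.snd (Tm.snd (Tm.snd (Tm.var 0)))) (Tm.var 2)) (Tm.var 0)
    have h2 := h1.1 D.N k (fun i => if i = 0 then h else e.toZFSet) (by
      intro i
      by_cases hi : i = 0
      · simp only [hi, if_true]
        exact hh.n
      · simp only [hi, if_false]
        exact he)
    exact h2
  · have h3 : hr h e = h := by
      unfold hr
      ext z
      rw [ZFSet.mem_sep]
      refine ⟨fun hz => hz.1, fun hz => ⟨hz, ?_⟩⟩
      obtain ⟨q, hq, X, Y, d, hd, hX, hY, heq⟩ := hh.m z hz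
      have h4 : D.N d.toZFSet := by
        rw [heq] at hz
        exact his_N hD hh.n hz
      rw [heq, sss_ht, Ordinal.toZFSet_mem_toZFSet_iff]
      by_contra hlt
      rcases (not_lt.1 hlt).eq_or_lt with h5 | h5
      · rw [← h5] at h4
        exact he h4
      · exact he (k.trans _ h4 _ (Ordinal.toZFSet_mem_toZFSet_iff.2 h5))
    rw [h3]
    exact hh.n

end PHA

open PHA in
theorem pf_PHA (hQ : T_QRN) (hK : T_BK) : T_PHA := by
  intro D hD ρ ρ' h σ hρ hρc hρ' hρ'c hsub hh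
  have hTr : Tr ρ := fun i hi => (hρc i hi).2
  refine ⟨?_, ?_, ?_⟩
  · intro G hG
    have hev : ∀ X', D.N X' → Nam D.L ρ X' → ev (gs G ρ) X' = ev G X' := fun X' h1 h2 =>
      ((hK D hD ρ' G hρ' hρ'c hG).1 ρ X' hρ hsub hTr h1 h2).2.2.2.2.2 ρ (fun _ h => h)
    have h1 : ∀ X y e, Ent h G X y e ↔ Ent h (gs G ρ) X y e := by
      intro X y e
      constructor
      · rintro ⟨q, hq, X', Y', hz, hX, hY⟩
        obtain ⟨h2, h3, h4, h5⟩ := his_mem hh hz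
        refine ⟨q, ZFSet.mem_sep.2 ⟨hq, dm_sub h2⟩, X', Y', hz, ?_, ?_⟩
        · rw [hev X' h4.1 h4.2, hX]
        · rw [hev Y' h5.1 h5.2, hY]
      · rintro ⟨q, hq, X', Y', hz, hX, hY⟩
        obtain ⟨h2, h3, h4, h5⟩ := his_mem hh hz
        refine ⟨q, (ZFSet.mem_sep.1 hq).1, X', Y', hz, ?_, ?_⟩
        · rw [← hev X' h4.1 h4.2, hX]
        · rw [← hev Y' h5.1 h5.2, hY]
    refine ⟨fun X y e => ⟨h1 X y e, ?_⟩, fun X => ?_⟩
    · rintro ⟨q, hq, X', Y', hz, hX, hY⟩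
      obtain ⟨h2, h3, h4, h5⟩ := his_mem hh hz
      have h6 := (hQ D hD ρ' G ρ hρ' hρ'c hG hρ hsub hTr).1
      exact ⟨(h6 X).2 ⟨X', h4.1, h4.2, hX⟩, (h6 y).2 ⟨Y', h5.1, h5.2, hY⟩, h3,
        his_N hD hh.n hz⟩
    · constructor
      · rintro ⟨y, e, he⟩
        exact ⟨y, e, (h1 X y e).1 he⟩
      · rintro ⟨y, e, he⟩
        exact ⟨y, e, (h1 X y e).2 he⟩
  · intro e
    have hN : D.N (hr h e) := hr_N hD hh e
    have hm : ∀ z, z ∈ hr h e ↔ z ∈ h ∧ snd (snd (snd z)) ∈ e.toZFSet := fun z => ZFSet.mem_sep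
    refine ⟨⟨hN, fun z hz => hh.m z ((hm z).1 hz).1⟩, ⟨hN, fun z hz => ?_⟩, ?_, ?_, ?_⟩
    · obtain ⟨h1, h2⟩ := (hm z).1 hz
      obtain ⟨q, hq, X, Y, d, hd, hX, hY, heq⟩ := hh.m z h1
      rw [heq, sss_ht, Ordinal.toZFSet_mem_toZFSet_iff] at h2
      exact ⟨q, hq, X, Y, d, h2, hX, hY, heq⟩
    · intro hle
      ext z
      rw [hm]
      refine ⟨fun hz => hz.1, fun hz => ⟨hz, ?_⟩⟩
      obtain ⟨q, hq, X, Y, d, hd, hX, hY, heq⟩ := hh.m z hz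
      rw [heq, sss_ht, Ordinal.toZFSet_mem_toZFSet_iff]
      exact hd.trans_le hle
    · intro d hd
      ext z
      unfold hr
      rw [ZFSet.mem_sep, ZFSet.mem_sep, ZFSet.mem_sep]
      constructor
      · rintro ⟨⟨h1, h2⟩, h3⟩
        exact ⟨h1, h3⟩
      · rintro ⟨h1, h3⟩
        refine ⟨⟨h1, ?_⟩, h3⟩
        obtain ⟨a, ha, hae⟩ := Ordinal.mem_toZFSet_iff.1 h3
        exact Ordinal.mem_toZFSet_iff.2 ⟨a, lt_of_lt_of_le ha hd, hae⟩
    · intro G X y d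
      constructor
      · rintro ⟨q, hq, X', Y', hz, hX, hY⟩
        obtain ⟨h1, h2⟩ := (hm _).1 hz
        rw [sss_ht, Ordinal.toZFSet_mem_toZFSet_iff] at h2
        exact ⟨⟨q, hq, X', Y', h1, hX, hY⟩, h2⟩
      · rintro ⟨⟨q, hq, X', Y', hz, hX, hY⟩, hd⟩
        refine ⟨q, hq, X', Y', (hm _).2 ⟨hz, ?_⟩, hX, hY⟩
        rw [sss_ht, Ordinal.toZFSet_mem_toZFSet_iff]
        exact hd
  · intro τ hτ
    refine ⟨hh.n, fun z hz => ?_⟩
    obtain ⟨q, hq, X, Y, d, hd, hX, hY, heq⟩ := hh.m z hz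
    exact ⟨q, hq, X, Y, d, hd.trans_le hτ, hX, hY, heq⟩

end SE.UZ
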