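import Pool.Agent.H45.UZ.TarP

/-!
# Module POB: bounds of agreeing families of closed objects
-/

set_option linter.unusedVariables false

open Ordinal Order Set
open scoped ZFSet

namespace SE.UZ

open SF

theorem pf_POB (hA : T_POA) : T_POB := by
  intro D κ hD b hb I F hF hO
  have h2 : ∀ B ∈ b.Ob, (∀ v ∈ I, b.Le (app F v) B) →
      (∀ k ∈ b.u B, (∀ v ∈ I, k ∉ b.u (app F v)) → Kl b.l k) → b.Obs B := by
    intro B hB hle hk
    refine ⟨hB, fun j hj hc => ?_⟩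
    have hex : ∃ v ∈ I, j ∈ b.u (app F v) := by
      by_contra hno
      push Not at hno
      obtain ⟨e, he, hke⟩ := hk j hj hno
      have h3 : kd j = nS b.l := hc
      rw [h3, nS_inj] at hke
      omega
    obtain ⟨v, hv, hjv⟩ := hex
    obtain ⟨h4, ⟨A, hA1, hA2⟩, h5⟩ := (hO v hv).v j hjv hc
    exact ⟨h4, ⟨A, hb.trn _ _ _ hA1 (hle v hv), hA2⟩, h5⟩
  refine ⟨?_, h2, ?_⟩
  · intro v hv v' hv' C hC hC' hu
    rw [(hA D κ hD b hb _ (hO v hv)).1 C hC]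
    intro j hj hc
    rw [hu, ZFSet.mem_inter] at hj
    have h3 := ((hA D κ hD b hb _ (hO v hv)).2.2 j hj.1 hc).2.1
    have h4 := ((hA D κ hD b hb _ (hO v' hv')).2.2 j hj.2 hc).2.1
    intro k hk
    rw [hu, ZFSet.mem_inter]
    exact ⟨h3 hk, h4 hk⟩
  · intro Z hZ
    obtain ⟨B, hB, hR, hk⟩ := hb.bd I F hF Z hZ
    have hle : ∀ v ∈ I, b.Le (app F v) B := fun v hv => (hb.rc _ _ (hR v hv)).1
    exact ⟨B, h2 B hB hle fun k hk1 hk2 => (hk k hk1 hk2).1,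
      fun v hv => ⟨hR v hv, hle v hv⟩, hk⟩

end SE.UZ
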