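import Pool.Agent.H45.UZ.TarP

/-!
# Module POC: new labels
-/

set_option linter.unusedVariables false

open Ordinal Order Set
open scoped ZFSet

namespace SE.UZ

open SF

theorem pf_POC (hA : T_POA) : T_POC := by
  intro D κ hD b hb B hB Y hY hYn e u he τ hτ hu Z hZ
  have he' : e = 0 ∨ b.l ≤ e := by
    rcases he with h | h | ⟨h, -⟩
    · exact Or.inl h
    · exact Or.inr h.le
    · exact Or.inr h.ge
  obtain ⟨B', i, h1, h2, h3, h4, h5, h6, h7, h8, h9, h10⟩ :=
    hb.lb B hB.o Y hY hYn e he' τ hτ u hu Z hZ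
  refine ⟨B', i, h1, ⟨(hb.leO _ _ h1).2.1, fun j hj hc => ?_⟩, h2, h3, h4, h5, h6, h7, h8, h9,
    h10⟩
  by_cases hjB : j ∈ b.u B
  · obtain ⟨h11, ⟨A, hA1, hA2⟩, h12⟩ := hB.v j hjB hc
    exact ⟨h11, ⟨A, hb.trn _ _ _ hA1 h1, hA2⟩, h12⟩
  · have hcj : kd j = nS b.l := hc
    have hji : j = i := by
      by_contra hne
      obtain ⟨⟨d, hd, hkd⟩, -⟩ := h10 j hj hjB hne
      rw [hcj, nS_inj] at hkd
      omega
    subst hji
    have hel : e = b.l := by
      rw [hcj, nS_inj] at h5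
      exact h5.symm
    have hue : u = b.u B := by
      rcases he with h | h | ⟨-, h⟩
      · have := hb.l3
        omega
      · omega
      · exact h
    rw [h7, hue]
    exact ⟨h8, ⟨B, h1, rfl⟩, fun k hk hck => ((hA D κ hD b hb B hB).2.2 k hk hck).2.1⟩

end SE.UZ
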